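import Mathlib

open scoped ENNReal

namespace Pool.Agent.Q197.AM

/-- `ν` is a `p`-norm on the real vector space `Y`. -/
structure IsPNorm (p : ℝ) {Y : Type} [AddCommGroup Y] [Module ℝ Y] (ν : Y → ℝ) : Prop where
  nonneg : ∀ y, 0 ≤ ν y
  eq_zero : ∀ y, ν y = 0 → y = 0
  smul : ∀ (a : ℝ) (y : Y), ν (a • y) = |a| * ν y
  add : ∀ x y, ν (x + y) ^ p ≤ ν x ^ p + ν y ^ p

/-- Every Cauchy sequence for `ν` converges. -/
def IsComplete {Y : Type} [AddCommGroup Y] (ν : Y → ℝ) : Prop :=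
  ∀ u : ℕ → Y, (∀ ε > 0, ∃ K, ∀ m ≥ K, ∀ n ≥ K, ν (u m - u n) < ε) →
    ∃ y, ∀ ε > 0, ∃ K, ∀ n ≥ K, ν (u n - y) < ε

/-- `d` is an `r`-metric on `M`: `d ^ r` is a metric. -/
structure IsRMetric (r : ℝ) {M : Type} (d : M → M → ℝ) : Prop where
  nonneg : ∀ x y, 0 ≤ d x y
  self : ∀ x, d x x = 0
  eq_of : ∀ x y, d x y = 0 → x = y
  symm : ∀ x y, d x y = d y x
  tri : ∀ x y z, d x z ^ r ≤ d x y ^ r + d y z ^ r

/-- The norm of `∑ a x δ(x)` in the Lipschitz-free `p`-space of the finite pointed space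
`(M, d, o)`: the supremum over all `p`-Banach spaces `Y` and all `1`-Lipschitz `f : M → Y` with
`f o = 0` of the norm of `∑ a x f(x)`. -/
noncomputable def freeNorm (p : ℝ) {M : Type} [Fintype M] (d : M → M → ℝ) (o : M) (a : M → ℝ) :
    ℝ≥0∞ :=
  ⨆ (Y : Type) (_ : AddCommGroup Y) (_ : Module ℝ Y) (ν : Y → ℝ) (f : M → Y)
    (_ : IsPNorm p ν ∧ IsComplete ν ∧ f o = 0 ∧ ∀ x y, ν (f x - f y) ≤ d x y),
    ENNReal.ofReal (ν (∑ x, a x • f x))

open Classical in
/-- extension by zero of a coefficient family on a subset -/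
noncomputable def ext0 {M : Type} (N : Set M) (a : N → ℝ) (x : M) : ℝ :=
  if h : x ∈ N then a ⟨x, h⟩ else 0

open Classical in
/-- The `p`-amenability constant `am_p(N, M)` of the subset `N ∋ o` of the finite pointed space
`(M, d, o)`. The coefficient families `a` on `N` run over the nonzero elements of the span of
`δ(N)`; extended by zero they give the same element over `M`. -/
noncomputable def am (p : ℝ) {M : Type} [Fintype M] (d : M → M → ℝ) (o : M) (N : Set M)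
    (ho : o ∈ N) : ℝ≥0∞ :=
  ⨆ (a : N → ℝ) (_ : ∃ x : N, (x : M) ≠ o ∧ a x ≠ 0),
    freeNorm p (fun x y : N => d x y) ⟨o, ho⟩ a /
      freeNorm p d o (ext0 N a)

/-- `A_p^q(n)`: the supremum of `am_p(N, M)` over the finite pointed `q`-metric spaces `M` and
`N ∋ 0` with `n + 1` points. -/
noncomputable def amSup (p q : ℝ) (n : ℕ) : ℝ≥0∞ :=
  ⨆ (M : Type) (_ : Fintype M) (d : M → M → ℝ) (o : M) (N : Set M) (ho : o ∈ N)
    (_ : IsRMetric q d ∧ Nat.card N = n + 1), am p d o N ho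

theorem ext0_mem {M : Type} {N : Set M} (a : N → ℝ) {x : M} (h : x ∈ N) :
    ext0 N a x = a ⟨x, h⟩ := dif_pos h

theorem ext0_not_mem {M : Type} {N : Set M} (a : N → ℝ) {x : M} (h : x ∉ N) :
    ext0 N a x = 0 := dif_neg h

end Pool.Agent.Q197.AM
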