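import Mathlib
import Pool.Agent.Q197.AM.Defs

namespace Pool.Agent.Q197.AM

variable {T : Type} [Fintype T] [DecidableEq T]

/-- the divergence of a flow -/
noncomputable def dvg (b : Option T → Option T → ℝ) (t : T) : ℝ :=
  ∑ v, b (some t) v - ∑ v, b v (some t)

/-- the cost of a flow -/
noncomputable def cost (p : ℝ) (D b : Option T → Option T → ℝ) : ℝ :=
  ∑ u, ∑ v, (b u v * D u v) ^ p

/-- admissible costs -/
def costs (p : ℝ) (D : Option T → Option T → ℝ) (ν : T → ℝ) : Set ℝ :=
  {c | ∃ b : Option T → Option T → ℝ, (∀ u v, 0 ≤ b u v) ∧ dvg b = ν ∧ cost p D b = c}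

/-- the `p`-th power of the gauge -/
noncomputable def gp (p : ℝ) (D : Option T → Option T → ℝ) (ν : T → ℝ) : ℝ :=
  sInf (costs p D ν)

/-- the gauge -/
noncomputable def gau (p : ℝ) (D : Option T → Option T → ℝ) (ν : T → ℝ) : ℝ :=
  gp p D ν ^ (1 / p)

/-- assumptions on the distance matrix -/
structure Good (D : Option T → Option T → ℝ) : Prop where
  self : ∀ u, D u u = 0
  symm : ∀ u v, D u v = D v u
  one_le : ∀ u v, u ≠ v → 1 ≤ D u v

variable {D : Option T → Option T → ℝ} {p : ℝ}

theorem Good.nonneg (hD : Good D) (u v : Option T) : 0 ≤ D u v := by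
  by_cases h : u = v
  · rw [h, hD.self]
  · linarith [hD.one_le u v h]

theorem cost_nonneg (hD : Good D) {b : Option T → Option T → ℝ} (hb : ∀ u v, 0 ≤ b u v) :
    0 ≤ cost p D b :=
  Finset.sum_nonneg fun u _ => Finset.sum_nonneg fun v _ =>
    Real.rpow_nonneg (mul_nonneg (hb u v) (hD.nonneg u v)) _

theorem rpow_add_le (hp : 0 < p) (hp1 : p ≤ 1) {x y : ℝ} (hx : 0 ≤ x) (hy : 0 ≤ y) :
    (x + y) ^ p ≤ x ^ p + y ^ p := by
  have := NNReal.rpow_add_le_add_rpow ⟨x, hx⟩ ⟨y, hy⟩ hp.le hp1
  exact_mod_cast this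

theorem rpow_sum_le (hp : 0 < p) (hp1 : p ≤ 1) {ι : Type*} (s : Finset ι) (x : ι → ℝ)
    (hx : ∀ i, 0 ≤ x i) : (∑ i ∈ s, x i) ^ p ≤ ∑ i ∈ s, x i ^ p := by
  classical
  induction s using Finset.induction_on with
  | empty => simp [Real.zero_rpow hp.ne']
  | insert a s ha ih =>
    rw [Finset.sum_insert ha, Finset.sum_insert ha]
    exact (rpow_add_le hp hp1 (hx a) (Finset.sum_nonneg fun i _ => hx i)).trans
      (add_le_add le_rfl ih)

theorem costs_bdd (hD : Good D) (ν : T → ℝ) : BddBelow (costs p D ν) :=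
  ⟨0, by rintro _ ⟨b, hb, _, rfl⟩; exact cost_nonneg hD hb⟩

/-- the direct flow to the root -/
noncomputable def star (ν : T → ℝ) : Option T → Option T → ℝ := fun u v =>
  match u, v with
  | some t, none => max (ν t) 0
  | none, some t => max (-ν t) 0
  | _, _ => 0

theorem star_nonneg (ν : T → ℝ) (u v : Option T) : 0 ≤ star ν u v := by
  unfold star
  split <;> simp

theorem dvg_star (ν : T → ℝ) : dvg (star ν) = ν := by
  funext t
  unfold dvg
  rw [Fintype.sum_option, Fintype.sum_option]
  simp only [star, Finset.sum_const_zero, add_zero]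
  rcases le_total (ν t) 0 with h | h
  · rw [max_eq_right h, max_eq_left (by linarith)]; ring
  · rw [max_eq_left h, max_eq_right (by linarith)]; ring

theorem cost_star (hp : 0 < p) (hD : Good D) (ν : T → ℝ) :
    cost p D (star ν) ≤ ∑ t, |ν t| ^ p * D (some t) none ^ p := by
  unfold cost
  rw [Fintype.sum_option, Fintype.sum_option]
  simp only [star, zero_mul, Real.zero_rpow hp.ne', zero_add]
  have h1 : ∀ t : T, ∑ v, (star ν (some t) v * D (some t) v) ^ p =
      (max (ν t) 0 * D (some t) none) ^ p := by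
    intro t
    rw [Fintype.sum_option]
    simp [star, Real.zero_rpow hp.ne']
  have h2 : ∑ t, (max (-ν t) 0 * D none (some t)) ^ p + ∑ t, ∑ v,
      (star ν (some t) v * D (some t) v) ^ p ≤ ∑ t, |ν t| ^ p * D (some t) none ^ p := by
    rw [← Finset.sum_add_distrib]
    refine Finset.sum_le_sum fun t _ => ?_
    rw [h1, hD.symm none (some t)]
    have hd := hD.nonneg (some t) none
    rcases le_total (ν t) 0 with h | h
    · rw [max_eq_right h, max_eq_left (by linarith : (0 : ℝ) ≤ -ν t), zero_mul,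
        Real.zero_rpow hp.ne', add_zero, abs_of_nonpos h, Real.mul_rpow (by linarith) hd]
    · rw [max_eq_left h, max_eq_right (by linarith : -ν t ≤ 0), zero_mul, Real.zero_rpow hp.ne',
        zero_add, abs_of_nonneg h, Real.mul_rpow h hd]
  refine le_trans (le_of_eq ?_) h2
  congr 1

theorem costs_nonempty (ν : T → ℝ) : (costs p D ν).Nonempty :=
  ⟨_, star ν, star_nonneg ν, dvg_star ν, rfl⟩

theorem gp_le (hD : Good D) {b : Option T → Option T → ℝ} (hb : ∀ u v, 0 ≤ b u v) {ν : T → ℝ}
    (h : dvg b = ν) : gp p D ν ≤ cost p D b :=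
  csInf_le (costs_bdd hD ν) ⟨b, hb, h, rfl⟩

theorem le_gp {ν : T → ℝ} {c : ℝ} (h : ∀ b : Option T → Option T → ℝ, (∀ u v, 0 ≤ b u v) →
    dvg b = ν → c ≤ cost p D b) : c ≤ gp p D ν := by
  refine le_csInf (costs_nonempty ν) ?_
  rintro _ ⟨b, hb, hν, rfl⟩
  exact h b hb hν

theorem gp_nonneg (hD : Good D) (ν : T → ℝ) : 0 ≤ gp p D ν :=
  le_gp fun _ hb _ => cost_nonneg hD hb

theorem abs_dvg_rpow_le (hp : 0 < p) (hp1 : p ≤ 1) (hD : Good D)
    {b : Option T → Option T → ℝ} (hb : ∀ u v, 0 ≤ b u v) (t : T) :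
    |dvg b t| ^ p ≤ cost p D b := by
  have h0 : dvg b t = ∑ v, (b (some t) v - b v (some t)) := by
    unfold dvg; rw [Finset.sum_sub_distrib]
  have h1 : |dvg b t| ≤ ∑ v, |b (some t) v - b v (some t)| := by
    rw [h0]; exact Finset.abs_sum_le_sum_abs _ _
  have h2 : |dvg b t| ^ p ≤ ∑ v, |b (some t) v - b v (some t)| ^ p :=
    (Real.rpow_le_rpow (abs_nonneg _) h1 hp.le).trans
      (rpow_sum_le hp hp1 _ _ fun v => abs_nonneg _)
  refine h2.trans ?_
  -- each term is at most the two costs
  have h3 : ∀ v, |b (some t) v - b v (some t)| ^ p ≤ if v = some t then 0 else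
      (b (some t) v * D (some t) v) ^ p + (b v (some t) * D v (some t)) ^ p := by
    intro v
    by_cases hv : v = some t
    · rw [if_pos hv, hv, sub_self, abs_zero, Real.zero_rpow hp.ne']
    · rw [if_neg hv]
      have ha := hb (some t) v
      have hc := hb v (some t)
      have hab : |b (some t) v - b v (some t)| ≤ b (some t) v + b v (some t) := by
        rw [abs_le]; constructor <;> linarith
      refine (Real.rpow_le_rpow (abs_nonneg _) hab hp.le).trans ?_
      refine (rpow_add_le hp hp1 ha hc).trans ?_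
      refine add_le_add ?_ ?_
      · refine Real.rpow_le_rpow ha ?_ hp.le
        exact le_mul_of_one_le_right ha (hD.one_le _ _ (fun h => hv h.symm))
      · refine Real.rpow_le_rpow hc ?_ hp.le
        exact le_mul_of_one_le_right hc (hD.one_le _ _ hv)
  have hnn : ∀ u v, 0 ≤ (b u v * D u v) ^ p := fun u v =>
    Real.rpow_nonneg (mul_nonneg (hb u v) (hD.nonneg u v)) _
  refine (Finset.sum_le_sum fun v _ => h3 v).trans ?_
  -- compare with the total cost
  have h4 : ∑ v, (if v = some t then 0 else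
      (b (some t) v * D (some t) v) ^ p + (b v (some t) * D v (some t)) ^ p) ≤
      ∑ v, (b (some t) v * D (some t) v) ^ p +
        ∑ v ∈ Finset.univ.erase (some t), (b v (some t) * D v (some t)) ^ p := by
    have e1 : ∑ v, (if v = some t then 0 else
      (b (some t) v * D (some t) v) ^ p + (b v (some t) * D v (some t)) ^ p) =
      ∑ v ∈ Finset.univ.erase (some t),
        ((b (some t) v * D (some t) v) ^ p + (b v (some t) * D v (some t)) ^ p) := by
      rw [← Finset.add_sum_erase _ _ (Finset.mem_univ (some t)), if_pos rfl, zero_add]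
      refine Finset.sum_congr rfl fun v hv => ?_
      rw [if_neg (Finset.ne_of_mem_erase hv)]
    rw [e1, Finset.sum_add_distrib]
    refine add_le_add ?_ le_rfl
    exact Finset.sum_le_sum_of_subset_of_nonneg (Finset.erase_subset _ _) fun v _ _ => hnn _ _
  refine h4.trans ?_
  have h5 : ∑ v, (b (some t) v * D (some t) v) ^ p +
      ∑ u ∈ Finset.univ.erase (some t), ∑ v, (b u v * D u v) ^ p = cost p D b :=
    Finset.add_sum_erase _ (fun u => ∑ v, (b u v * D u v) ^ p) (Finset.mem_univ (some t))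
  rw [← h5]
  refine add_le_add le_rfl (Finset.sum_le_sum fun v _ => ?_)
  exact Finset.single_le_sum (f := fun w => (b v w * D v w) ^ p) (fun w _ => hnn v w)
    (Finset.mem_univ (some t))

theorem abs_rpow_le_gp (hp : 0 < p) (hp1 : p ≤ 1) (hD : Good D) (ν : T → ℝ) (t : T) :
    |ν t| ^ p ≤ gp p D ν :=
  le_gp fun b hb h => by rw [← h]; exact abs_dvg_rpow_le hp hp1 hD hb t

theorem dvg_add (b c : Option T → Option T → ℝ) :
    dvg (fun u v => b u v + c u v) = dvg b + dvg c := by
  funext t
  simp only [dvg, Pi.add_apply, Finset.sum_add_distrib]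
  ring

theorem gp_add (hp : 0 < p) (hp1 : p ≤ 1) (hD : Good D) (ν μ : T → ℝ) :
    gp p D (ν + μ) ≤ gp p D ν + gp p D μ := by
  have h1 : gp p D (ν + μ) - gp p D μ ≤ gp p D ν := by
    refine le_gp fun b hb hν => ?_
    rw [sub_le_iff_le_add, ← sub_le_iff_le_add']
    refine le_gp fun c hc hμ => ?_
    rw [sub_le_iff_le_add']
    refine (gp_le hD (b := fun u v => b u v + c u v) (fun u v => add_nonneg (hb u v) (hc u v))
      (by rw [dvg_add, hν, hμ])).trans ?_
    unfold cost
    rw [← Finset.sum_add_distrib]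
    refine Finset.sum_le_sum fun u _ => ?_
    rw [← Finset.sum_add_distrib]
    refine Finset.sum_le_sum fun v _ => ?_
    rw [add_mul]
    exact rpow_add_le hp hp1 (mul_nonneg (hb u v) (hD.nonneg u v))
      (mul_nonneg (hc u v) (hD.nonneg u v))
  linarith

theorem gp_smul_le (hp : 0 < p) (hD : Good D) (a : ℝ) (ν : T → ℝ) :
    gp p D (a • ν) ≤ |a| ^ p * gp p D ν := by
  rcases eq_or_ne a 0 with h0 | h0
  · subst h0
    rw [zero_smul, abs_zero, Real.zero_rpow hp.ne', zero_mul]
    refine (gp_le hD (b := fun _ _ => 0) (fun _ _ => le_rfl) ?_).trans ?_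
    · funext t; simp [dvg]
    · simp [cost, Real.zero_rpow hp.ne']
  have ha : 0 < |a| ^ p := Real.rpow_pos_of_pos (abs_pos.2 h0) _
  have h1 : gp p D (a • ν) / |a| ^ p ≤ gp p D ν := by
    refine le_gp fun b hb hν => ?_
    rw [div_le_iff₀ ha]
    rcases lt_or_gt_of_ne h0 with hneg | hpos
    · refine (gp_le hD (b := fun u v => |a| * b v u)
        (fun u v => mul_nonneg (abs_nonneg _) (hb v u)) ?_).trans (le_of_eq ?_)
      · funext t
        rw [Pi.smul_apply, ← hν]
        simp only [dvg, ← Finset.mul_sum, abs_of_neg hneg, smul_eq_mul]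
        ring
      · unfold cost
        rw [Finset.sum_comm, Finset.sum_mul]
        refine Finset.sum_congr rfl fun u _ => ?_
        rw [Finset.sum_mul]
        refine Finset.sum_congr rfl fun v _ => ?_
        rw [mul_assoc, Real.mul_rpow (abs_nonneg _) (mul_nonneg (hb _ _) (hD.nonneg _ _)),
          hD.symm v u, mul_comm]
    · refine (gp_le hD (b := fun u v => |a| * b u v)
        (fun u v => mul_nonneg (abs_nonneg _) (hb u v)) ?_).trans (le_of_eq ?_)
      · funext t
        rw [Pi.smul_apply, ← hν]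
        simp only [dvg, ← Finset.mul_sum, abs_of_pos hpos, smul_eq_mul]
        ring
      · unfold cost
        rw [Finset.sum_mul]
        refine Finset.sum_congr rfl fun u _ => ?_
        rw [Finset.sum_mul]
        refine Finset.sum_congr rfl fun v _ => ?_
        rw [mul_assoc, Real.mul_rpow (abs_nonneg _) (mul_nonneg (hb _ _) (hD.nonneg _ _)),
          mul_comm]
  rw [div_le_iff₀ ha] at h1
  linarith

theorem gp_smul (hp : 0 < p) (hD : Good D) (a : ℝ) (ν : T → ℝ) :
    gp p D (a • ν) = |a| ^ p * gp p D ν := by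
  refine le_antisymm (gp_smul_le hp hD a ν) ?_
  rcases eq_or_ne a 0 with h0 | h0
  · subst h0
    rw [abs_zero, Real.zero_rpow hp.ne', zero_mul]
    exact gp_nonneg hD _
  have h1 := gp_smul_le hp hD a⁻¹ (a • ν)
  rw [smul_smul, inv_mul_cancel₀ h0, one_smul, abs_inv, Real.inv_rpow (abs_nonneg _)] at h1
  have ha : 0 < |a| ^ p := Real.rpow_pos_of_pos (abs_pos.2 h0) _
  calc |a| ^ p * gp p D ν ≤ |a| ^ p * ((|a| ^ p)⁻¹ * gp p D (a • ν)) :=
        mul_le_mul_of_nonneg_left h1 ha.le
    _ = gp p D (a • ν) := by rw [← mul_assoc, mul_inv_cancel₀ ha.ne', one_mul]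

theorem gau_rpow (hp : 0 < p) (hD : Good D) (ν : T → ℝ) : gau p D ν ^ p = gp p D ν := by
  unfold gau
  rw [← Real.rpow_mul (gp_nonneg hD ν), one_div_mul_cancel hp.ne', Real.rpow_one]

theorem gau_nonneg (hD : Good D) (ν : T → ℝ) : 0 ≤ gau p D ν :=
  Real.rpow_nonneg (gp_nonneg hD ν) _

theorem isPNorm_gau (hp : 0 < p) (hp1 : p ≤ 1) (hD : Good D) : IsPNorm p (gau p D) where
  nonneg := gau_nonneg hD
  eq_zero := by
    intro ν hν
    have h1 : gp p D ν = 0 := by rw [← gau_rpow hp hD, hν, Real.zero_rpow hp.ne']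
    funext t
    have h2 := abs_rpow_le_gp hp hp1 hD ν t
    rw [h1] at h2
    have h3 : |ν t| ^ p = 0 := le_antisymm h2 (Real.rpow_nonneg (abs_nonneg _) _)
    rw [Real.rpow_eq_zero (abs_nonneg _) hp.ne'] at h3
    exact abs_eq_zero.1 h3
  smul := by
    intro a ν
    unfold gau
    rw [gp_smul hp hD, Real.mul_rpow (Real.rpow_nonneg (abs_nonneg _) _) (gp_nonneg hD ν),
      ← Real.rpow_mul (abs_nonneg _), mul_one_div_cancel hp.ne', Real.rpow_one]
  add := by
    intro ν μ
    rw [gau_rpow hp hD, gau_rpow hp hD, gau_rpow hp hD]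
    exact gp_add hp hp1 hD ν μ

theorem abs_le_gau (hp : 0 < p) (hp1 : p ≤ 1) (hD : Good D) (ν : T → ℝ) (t : T) :
    |ν t| ≤ gau p D ν := by
  have h := abs_rpow_le_gp hp hp1 hD ν t
  rw [← gau_rpow hp hD] at h
  exact (Real.rpow_le_rpow_iff (abs_nonneg _) (gau_nonneg hD ν) hp).1 h

theorem isComplete_gau (hp : 0 < p) (hp1 : p ≤ 1) (hD : Good D) : IsComplete (gau p D) := by
  intro u hu
  have hc : ∀ t, ∃ y, Filter.Tendsto (fun n => u n t) Filter.atTop (nhds y) := by
    intro t
    refine cauchySeq_tendsto_of_complete (Metric.cauchySeq_iff.2 fun ε hε => ?_)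
    obtain ⟨K, hK⟩ := hu ε hε
    refine ⟨K, fun m hm n hn => ?_⟩
    rw [Real.dist_eq]
    exact (abs_le_gau hp hp1 hD (u m - u n) t).trans_lt (hK m hm n hn)
  choose y hy using hc
  refine ⟨y, fun ε hε => ?_⟩
  have h1 : Filter.Tendsto (fun n => ∑ t, |(u n - y) t| ^ p * D (some t) none ^ p) Filter.atTop
      (nhds (∑ t, |(0 : ℝ)| ^ p * D (some t) none ^ p)) := by
    refine tendsto_finsetSum _ fun t _ => ?_
    refine Filter.Tendsto.mul_const _ ?_
    have h2 : Filter.Tendsto (fun n => (u n - y) t) Filter.atTop (nhds 0) := by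
      have := (hy t).sub_const (y t)
      rwa [sub_self] at this
    exact (h2.abs).rpow_const (Or.inr hp.le)
  simp only [abs_zero, Real.zero_rpow hp.ne', zero_mul, Finset.sum_const_zero] at h1
  have h3 := (h1.eventually (gt_mem_nhds (Real.rpow_pos_of_pos hε p)))
  obtain ⟨K, hK⟩ := Filter.eventually_atTop.1 h3
  refine ⟨K, fun n hn => ?_⟩
  have h4 := hK n hn
  have h5 : gp p D (u n - y) < ε ^ p :=
    ((gp_le hD (star_nonneg _) (dvg_star _)).trans (cost_star hp hD _)).trans_lt h4
  rw [← gau_rpow hp hD] at h5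
  exact (Real.rpow_lt_rpow_iff (gau_nonneg hD _) hε.le hp).1 h5

/-- the canonical embedding -/
noncomputable def emb : Option T → T → ℝ
  | none => 0
  | some t => Pi.single t 1

theorem gau_emb (hp : 0 < p) (hD : Good D) (u v : Option T) :
    gau p D (emb u - emb v) ≤ D u v := by
  rw [← Real.rpow_le_rpow_iff (gau_nonneg hD _) (hD.nonneg u v) hp, gau_rpow hp hD]
  by_cases huv : u = v
  · subst huv
    rw [sub_self, hD.self, Real.zero_rpow hp.ne']
    refine (gp_le hD (b := fun _ _ => 0) (fun _ _ => le_rfl) ?_).trans ?_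
    · funext t; simp [dvg]
    · simp [cost, Real.zero_rpow hp.ne']
  let b : Option T → Option T → ℝ := fun x y => if x = u ∧ y = v then 1 else 0
  have hb : ∀ x y, 0 ≤ b x y := fun x y => by
    simp only [b]; split_ifs <;> norm_num
  have hdv : dvg b = emb u - emb v := by
    funext t
    have e1 : ∑ y, b (some t) y = if some t = u then 1 else 0 := by
      simp only [b]
      by_cases h : some t = u
      · simp [h]
      · simp [h]
    have e2 : ∑ y, b y (some t) = if some t = v then 1 else 0 := by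
      simp only [b]
      by_cases h : some t = v
      · simp [h]
      · simp [h]
    have e3 : ∀ w : Option T, emb w t = if some t = w then 1 else 0 := by
      intro w
      cases w with
      | none => simp [emb]
      | some s =>
        simp only [emb, Option.some.injEq]
        by_cases h : t = s
        · subst h; simp
        · rw [Pi.single_eq_of_ne h, if_neg h]
    unfold dvg
    rw [e1, e2, Pi.sub_apply, e3, e3]
  refine (gp_le hD hb hdv).trans (le_of_eq ?_)
  unfold cost
  rw [Finset.sum_eq_single u]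
  · rw [Finset.sum_eq_single v]
    · simp [b]
    · intro y _ hy
      simp [b, hy, Real.zero_rpow hp.ne']
    · intro h; exact absurd (Finset.mem_univ _) h
  · intro x _ hx
    refine Finset.sum_eq_zero fun y _ => ?_
    simp [b, hx, Real.zero_rpow hp.ne']
  · intro h; exact absurd (Finset.mem_univ _) h

end Pool.Agent.Q197.AM
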