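import Mathlib
import Pool.Agent.Q197.AM.Gauge

namespace Pool.Agent.Q197.AM

/-- `x ↦ min 1 x` is subadditive and below `x ^ p` -/
theorem min_sum_le {p : ℝ} (hp : 0 < p) (hp1 : p ≤ 1) {ι : Type*} (s : Finset ι) (x : ι → ℝ)
    (hx : ∀ i, 0 ≤ x i) : min 1 (∑ i ∈ s, x i) ≤ ∑ i ∈ s, x i ^ p := by
  by_cases h : ∃ i ∈ s, 1 ≤ x i
  · obtain ⟨i, hi, h1⟩ := h
    refine (min_le_left _ _).trans ?_
    refine le_trans ?_ (Finset.single_le_sum (f := fun i => x i ^ p)
      (fun j _ => Real.rpow_nonneg (hx j) _) hi)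
    exact Real.one_le_rpow h1 hp.le
  · push Not at h
    refine (min_le_right _ _).trans (Finset.sum_le_sum fun i hi => ?_)
    have h1 := h i hi
    calc x i = x i ^ (1 : ℝ) := (Real.rpow_one _).symm
      _ ≤ x i ^ p := Real.rpow_le_rpow_of_exponent_ge_of_imp (hx i) h1.le hp1 (by
        intro _ h0; exact absurd h0 one_ne_zero)

theorem theta_ge {p : ℝ} (hp : 0 < p) (hp1 : p ≤ 1) {k w κ o : ℝ} (hk : 1 ≤ k) (hw : 1 ≤ w)
    (hκ1 : κ ≤ w - 1) (hκ2 : 1 + κ * k ≤ w * k ^ p) (ho : 0 ≤ o) (hok : o ≤ k) :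
    1 + κ * o ≤ max (1 - o) 0 + w * o ^ p := by
  rcases le_total o 1 with h1 | h1
  · have h2 : o ≤ o ^ p := by
      calc o = o ^ (1 : ℝ) := (Real.rpow_one _).symm
        _ ≤ o ^ p := Real.rpow_le_rpow_of_exponent_ge_of_imp ho h1 hp1 (by
          intro _ h0; exact absurd h0 one_ne_zero)
    have h3 : 1 - o ≤ max (1 - o) 0 := le_max_left _ _
    nlinarith
  · have h3 : 0 ≤ max (1 - o) 0 := le_max_right _ _
    suffices h : 1 + κ * o ≤ w * o ^ p by linarith
    rcases eq_or_lt_of_le hk with hk1 | hk1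
    · have : o = 1 := le_antisymm (by linarith) h1
      rw [this, Real.one_rpow]; linarith
    -- concavity on `[1,k]`
    have hconc := Real.concaveOn_rpow hp.le hp1
    set θ : ℝ := (o - 1) / (k - 1) with hθ
    have hk0 : 0 < k - 1 := by linarith
    have hθ0 : 0 ≤ θ := div_nonneg (by linarith) hk0.le
    have hθ1 : θ ≤ 1 := by rw [hθ, div_le_one hk0]; linarith
    have ho' : o = (1 - θ) * 1 + θ * k := by
      rw [hθ]; field_simp; ring
    have h5 := hconc.2 (show (1 : ℝ) ∈ Set.Ici 0 by simp) (show k ∈ Set.Ici (0 : ℝ) by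
      simp only [Set.mem_Ici]; linarith) (show 0 ≤ 1 - θ by linarith) hθ0 (by ring)
    simp only [smul_eq_mul, Real.one_rpow] at h5
    rw [← ho'] at h5
    have h6 : (1 - θ) * (1 + κ) + θ * (1 + κ * k) = 1 + κ * o := by rw [ho']; ring
    rw [← h6]
    have h7 : (1 - θ) * (1 + κ) ≤ (1 - θ) * w := mul_le_mul_of_nonneg_left (by linarith)
      (by linarith)
    have h8 : θ * (1 + κ * k) ≤ θ * (w * k ^ p) := mul_le_mul_of_nonneg_left hκ2 hθ0
    have h9 : w * ((1 - θ) * 1 + θ * k ^ p) ≤ w * o ^ p :=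
      mul_le_mul_of_nonneg_left h5 (by linarith)
    nlinarith

/-- the cost of one cluster -/
theorem cluster {p : ℝ} (hp : 0 < p) (hp1 : p ≤ 1) {k : ℕ} {w κ : ℝ} (hk : 1 ≤ k) (hw : 1 ≤ w)
    (hκ0 : 0 ≤ κ) (hκ1 : κ ≤ w - 1) (hκ2 : 1 + κ * k ≤ w * (k : ℝ) ^ p) (o : Fin k → ℝ)
    (ho : ∀ i, 0 ≤ o i) (hsum : (k : ℝ) ≤ ∑ i, o i) :
    (k : ℝ) + κ * k ≤ ∑ i, (max (1 - o i) 0 + w * o i ^ p) := by
  have hk' : (1 : ℝ) ≤ k := by exact_mod_cast hk
  have hone : ∀ i, 1 ≤ max (1 - o i) 0 + w * o i ^ p := by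
    intro i
    rcases le_total (o i) k with h | h
    · have := theta_ge hp hp1 hk' hw hκ1 hκ2 (ho i) h
      nlinarith [mul_nonneg hκ0 (ho i)]
    · have h1 : (k : ℝ) ^ p ≤ o i ^ p := Real.rpow_le_rpow (by positivity) h hp.le
      have h2 : w * (k : ℝ) ^ p ≤ w * o i ^ p := mul_le_mul_of_nonneg_left h1 (by linarith)
      have h3 : 0 ≤ max (1 - o i) 0 := le_max_right _ _
      have h4 : 0 ≤ κ * k := by positivity
      linarith
  by_cases h : ∃ i, (k : ℝ) < o i
  · obtain ⟨i, hi⟩ := h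
    rw [← Finset.add_sum_erase _ _ (Finset.mem_univ i)]
    have h1 : 1 + κ * k ≤ max (1 - o i) 0 + w * o i ^ p := by
      have h1 : (k : ℝ) ^ p ≤ o i ^ p := Real.rpow_le_rpow (by positivity) hi.le hp.le
      have h2 : w * (k : ℝ) ^ p ≤ w * o i ^ p := mul_le_mul_of_nonneg_left h1 (by linarith)
      have h3 : 0 ≤ max (1 - o i) 0 := le_max_right _ _
      linarith
    have h2 : ((k : ℝ) - 1) ≤ ∑ j ∈ Finset.univ.erase i, (max (1 - o j) 0 + w * o j ^ p) := by
      have h3 : ∑ _j ∈ Finset.univ.erase i, (1 : ℝ) ≤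
          ∑ j ∈ Finset.univ.erase i, (max (1 - o j) 0 + w * o j ^ p) :=
        Finset.sum_le_sum fun j _ => hone j
      rw [Finset.sum_const, Finset.card_erase_of_mem (Finset.mem_univ i), Finset.card_univ,
        Fintype.card_fin, nsmul_eq_mul, mul_one, Nat.cast_sub hk, Nat.cast_one] at h3
      exact h3
    linarith
  · push Not at h
    have h1 : ∑ i, (1 + κ * o i) ≤ ∑ i, (max (1 - o i) 0 + w * o i ^ p) :=
      Finset.sum_le_sum fun i _ => theta_ge hp hp1 hk' hw hκ1 hκ2 (ho i) (h i)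
    rw [Finset.sum_add_distrib, ← Finset.mul_sum, Finset.sum_const, Finset.card_univ,
      Fintype.card_fin, nsmul_eq_mul, mul_one] at h1
    have h2 : κ * k ≤ κ * ∑ i, o i := mul_le_mul_of_nonneg_left hsum hκ0
    linarith

theorem sum_split {m k : ℕ} (F : Option (Fin m × Fin k) → ℝ) (c : Fin m) :
    ∑ v, F v = F none + ∑ c' ∈ Finset.univ.erase c, ∑ j, F (some (c', j)) +
      ∑ j, F (some (c, j)) := by
  rw [Fintype.sum_option, Fintype.sum_prod_type,
    ← Finset.add_sum_erase _ _ (Finset.mem_univ c)]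
  ring

theorem lower {p : ℝ} (hp : 0 < p) (hp1 : p ≤ 1) {m k : ℕ} (hk : 1 ≤ k)
    {D : Option (Fin m × Fin k) → Option (Fin m × Fin k) → ℝ} (hD : Good D) {w1 w κ : ℝ}
    (hw1 : 0 ≤ w1) (hw : 1 ≤ w) (hκ0 : 0 ≤ κ) (hκ1 : κ ≤ w - 1)
    (hκ2 : 1 + κ * k ≤ w * (k : ℝ) ^ p)
    (hD1 : ∀ c i j, i ≠ j → w1 ≤ D (some (c, i)) (some (c, j)) ^ p)
    (hD2 : ∀ c i c' j, c ≠ c' → w1 * w ≤ D (some (c, i)) (some (c', j)) ^ p)
    (hD3 : ∀ c i, w1 * w ≤ D (some (c, i)) none ^ p)
    (b : Option (Fin m × Fin k) → Option (Fin m × Fin k) → ℝ) (hb : ∀ u v, 0 ≤ b u v)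
    (hdv : dvg b = 1) : (m : ℝ) * (w1 * (k + κ * k)) ≤ cost p D b := by
  have hnn : ∀ u v, 0 ≤ (b u v * D u v) ^ p := fun u v =>
    Real.rpow_nonneg (mul_nonneg (hb u v) (hD.nonneg u v)) _
  let inn : Fin m → Fin k → ℝ := fun c i =>
    ∑ j ∈ Finset.univ.erase i, b (some (c, i)) (some (c, j))
  let out : Fin m → Fin k → ℝ := fun c i => b (some (c, i)) none +
    ∑ c' ∈ Finset.univ.erase c, ∑ j, b (some (c, i)) (some (c', j))
  have hout0 : ∀ c i, 0 ≤ out c i := fun c i => add_nonneg (hb _ _)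
    (Finset.sum_nonneg fun _ _ => Finset.sum_nonneg fun _ _ => hb _ _)
  have hrow : ∀ c i, ∑ v, b (some (c, i)) v =
      out c i + (b (some (c, i)) (some (c, i)) + inn c i) := by
    intro c i
    rw [sum_split _ c, ← Finset.add_sum_erase _ (fun j => b (some (c, i)) (some (c, j)))
      (Finset.mem_univ i)]
  -- conservation at a vertex
  have hcons : ∀ c i, 1 ≤ inn c i + out c i := by
    intro c i
    have h1 : dvg b (c, i) = 1 := by rw [hdv]; rfl
    unfold dvg at h1
    rw [hrow] at h1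
    have h2 : b (some (c, i)) (some (c, i)) ≤ ∑ v, b v (some (c, i)) :=
      Finset.single_le_sum (f := fun v => b v (some (c, i))) (fun v _ => hb _ _)
        (Finset.mem_univ _)
    linarith
  -- conservation in a cluster
  have hclu : ∀ c, (k : ℝ) ≤ ∑ i, out c i := by
    intro c
    have h1 : ∑ i, dvg b (c, i) = k := by
      rw [hdv]; simp
    unfold dvg at h1
    rw [Finset.sum_sub_distrib] at h1
    have h2 : ∑ i, ∑ v, b (some (c, i)) v =
        ∑ i, out c i + ∑ i, ∑ j, b (some (c, i)) (some (c, j)) := by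
      rw [← Finset.sum_add_distrib]
      refine Finset.sum_congr rfl fun i _ => ?_
      rw [sum_split _ c]
    have h3 : ∑ i, ∑ j, b (some (c, i)) (some (c, j)) ≤ ∑ i, ∑ v, b v (some (c, i)) := by
      rw [Finset.sum_comm]
      refine Finset.sum_le_sum fun i _ => ?_
      rw [sum_split (fun v => b v (some (c, i))) c]
      have h4 : 0 ≤ b none (some (c, i)) +
          ∑ c' ∈ Finset.univ.erase c, ∑ j, b (some (c', j)) (some (c, i)) := add_nonneg (hb _ _)
        (Finset.sum_nonneg fun _ _ => Finset.sum_nonneg fun _ _ => hb _ _)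
      linarith
    linarith
  -- cost at a vertex
  have hvert : ∀ c i, w1 * (max (1 - out c i) 0 + w * out c i ^ p) ≤
      ∑ v, (b (some (c, i)) v * D (some (c, i)) v) ^ p := by
    intro c i
    rw [sum_split _ c, ← Finset.add_sum_erase _
      (fun j => (b (some (c, i)) (some (c, j)) * D (some (c, i)) (some (c, j))) ^ p)
      (Finset.mem_univ i)]
    have h1 : w1 * max (1 - out c i) 0 ≤ ∑ j ∈ Finset.univ.erase i,
        (b (some (c, i)) (some (c, j)) * D (some (c, i)) (some (c, j))) ^ p := by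
      have h2 : max (1 - out c i) 0 ≤ min 1 (inn c i) := by
        have := hcons c i
        have h3 := hout0 c i
        have h4 : 0 ≤ inn c i := Finset.sum_nonneg fun _ _ => hb _ _
        refine max_le (le_min ?_ ?_) (le_min ?_ ?_) <;> linarith
      have h3 := min_sum_le hp hp1 (Finset.univ.erase i)
        (fun j => b (some (c, i)) (some (c, j))) (fun j => hb _ _)
      calc w1 * max (1 - out c i) 0 ≤ w1 * ∑ j ∈ Finset.univ.erase i,
            b (some (c, i)) (some (c, j)) ^ p :=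
            mul_le_mul_of_nonneg_left (h2.trans h3) hw1
        _ ≤ _ := by
          rw [Finset.mul_sum]
          refine Finset.sum_le_sum fun j hj => ?_
          rw [Real.mul_rpow (hb _ _) (hD.nonneg _ _), mul_comm]
          exact mul_le_mul_of_nonneg_left (hD1 c i j (Finset.ne_of_mem_erase hj).symm)
            (Real.rpow_nonneg (hb _ _) _)
    have h2 : w1 * (w * out c i ^ p) ≤ (b (some (c, i)) none * D (some (c, i)) none) ^ p +
        ∑ c' ∈ Finset.univ.erase c, ∑ j,
          (b (some (c, i)) (some (c', j)) * D (some (c, i)) (some (c', j))) ^ p := by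
      have h3 : out c i ^ p ≤ b (some (c, i)) none ^ p +
          ∑ c' ∈ Finset.univ.erase c, ∑ j, b (some (c, i)) (some (c', j)) ^ p := by
        refine (rpow_add_le hp hp1 (hb _ _)
          (Finset.sum_nonneg fun _ _ => Finset.sum_nonneg fun _ _ => hb _ _)).trans ?_
        refine add_le_add le_rfl ?_
        refine (rpow_sum_le hp hp1 _ _ fun _ => Finset.sum_nonneg fun _ _ => hb _ _).trans ?_
        exact Finset.sum_le_sum fun c' _ => rpow_sum_le hp hp1 _ _ fun _ => hb _ _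
      have h4 : 0 ≤ w1 * w := mul_nonneg hw1 (by linarith)
      calc w1 * (w * out c i ^ p) = (w1 * w) * out c i ^ p := by ring
        _ ≤ (w1 * w) * (b (some (c, i)) none ^ p +
          ∑ c' ∈ Finset.univ.erase c, ∑ j, b (some (c, i)) (some (c', j)) ^ p) :=
            mul_le_mul_of_nonneg_left h3 h4
        _ ≤ _ := by
          rw [mul_add, Finset.mul_sum]
          refine add_le_add ?_ (Finset.sum_le_sum fun c' hc' => ?_)
          · rw [Real.mul_rpow (hb _ _) (hD.nonneg _ _), mul_comm]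
            exact mul_le_mul_of_nonneg_left (hD3 c i) (Real.rpow_nonneg (hb _ _) _)
          · rw [Finset.mul_sum]
            refine Finset.sum_le_sum fun j _ => ?_
            rw [Real.mul_rpow (hb _ _) (hD.nonneg _ _), mul_comm]
            exact mul_le_mul_of_nonneg_left (hD2 c i c' j (Finset.ne_of_mem_erase hc').symm)
              (Real.rpow_nonneg (hb _ _) _)
    have h5 := hnn (some (c, i)) (some (c, i))
    rw [mul_add]
    linarith
  -- total
  have htot : ∑ c, ∑ i, w1 * (max (1 - out c i) 0 + w * out c i ^ p) ≤ cost p D b := by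
    unfold cost
    rw [Fintype.sum_option, Fintype.sum_prod_type]
    have h1 : 0 ≤ ∑ v, (b none v * D none v) ^ p := Finset.sum_nonneg fun v _ => hnn _ _
    have h2 : ∑ c, ∑ i, w1 * (max (1 - out c i) 0 + w * out c i ^ p) ≤
        ∑ c, ∑ i, ∑ v, (b (some (c, i)) v * D (some (c, i)) v) ^ p :=
      Finset.sum_le_sum fun c _ => Finset.sum_le_sum fun i _ => hvert c i
    linarith
  refine le_trans ?_ htot
  have h6 : ∀ c, w1 * (k + κ * k) ≤ ∑ i, w1 * (max (1 - out c i) 0 + w * out c i ^ p) := by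
    intro c
    rw [← Finset.mul_sum]
    exact mul_le_mul_of_nonneg_left
      (cluster hp hp1 hk hw hκ0 hκ1 hκ2 (out c) (hout0 c) (hclu c)) hw1
  have h7 := Finset.sum_le_sum (s := Finset.univ) fun c (_ : c ∈ Finset.univ) => h6 c
  rw [Finset.sum_const, Finset.card_univ, Fintype.card_fin, nsmul_eq_mul] at h7
  exact h7

end Pool.Agent.Q197.AM
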