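import Mathlib
import Pool.Agent.Q197.AM.Lower

open scoped ENNReal
open Filter

namespace Pool.Agent.Q197.AM

/-- The points: leaves and sink on the left, centers and hub on the right. -/
abbrev Pt (m k : ℕ) : Type := Option (Fin m × Fin k) ⊕ Option (Fin m)

/-- the tree metric -/
def rho {m k : ℕ} : Pt m k → Pt m k → ℝ
  | .inl none, .inl none => 0
  | .inl none, .inl (some _) => 4
  | .inl (some _), .inl none => 4
  | .inl (some (c, i)), .inl (some (c', j)) => if c = c' then (if i = j then 0 else 2) else 4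
  | .inl none, .inr none => 2
  | .inl none, .inr (some _) => 3
  | .inl (some _), .inr none => 2
  | .inl (some (c, _)), .inr (some c') => if c = c' then 1 else 3
  | .inr none, .inl none => 2
  | .inr (some _), .inl none => 3
  | .inr none, .inl (some _) => 2
  | .inr (some c'), .inl (some (c, _)) => if c = c' then 1 else 3
  | .inr none, .inr none => 0
  | .inr none, .inr (some _) => 1
  | .inr (some _), .inr none => 1
  | .inr (some c), .inr (some c') => if c = c' then 0 else 2

variable {m k : ℕ}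

theorem rho_nonneg (x y : Pt m k) : 0 ≤ rho x y := by
  rcases x with (_ | ⟨c, i⟩) | (_ | c) <;> rcases y with (_ | ⟨c', j⟩) | (_ | c') <;>
    simp only [rho] <;> (try split_ifs) <;> norm_num

theorem rho_self (x : Pt m k) : rho x x = 0 := by
  rcases x with (_ | ⟨c, i⟩) | (_ | c) <;> simp [rho]

theorem rho_symm (x y : Pt m k) : rho x y = rho y x := by
  rcases x with (_ | ⟨c, i⟩) | (_ | c) <;> rcases y with (_ | ⟨c', j⟩) | (_ | c') <;>
    simp only [rho]
  · simp only [eq_comm]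
  · simp only [eq_comm]

theorem rho_eq (x y : Pt m k) (h : rho x y = 0) : x = y := by
  rcases x with (_ | ⟨c, i⟩) | (_ | c) <;> rcases y with (_ | ⟨c', j⟩) | (_ | c') <;>
    simp only [rho] at h <;> (try split_ifs at h) <;> (try norm_num at h) <;> simp_all

theorem rho_tri (x y z : Pt m k) : rho x z ≤ rho x y + rho y z := by
  rcases x with (_ | ⟨c, i⟩) | (_ | c) <;> rcases y with (_ | ⟨c', j⟩) | (_ | c') <;>
    rcases z with (_ | ⟨c'', l⟩) | (_ | c'') <;>
    simp only [rho] <;> (try split_ifs) <;> (try norm_num) <;> simp_all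

/-- the `q`-metric -/
noncomputable def dq (q : ℝ) (x y : Pt m k) : ℝ := rho x y ^ (1 / q)

theorem dq_rpow {q : ℝ} (hq : 0 < q) (x y : Pt m k) : dq q x y ^ q = rho x y := by
  unfold dq
  rw [← Real.rpow_mul (rho_nonneg x y), one_div_mul_cancel hq.ne', Real.rpow_one]

theorem isRMetric_dq {q : ℝ} (hq : 0 < q) : IsRMetric q (dq q : Pt m k → Pt m k → ℝ) where
  nonneg x y := Real.rpow_nonneg (rho_nonneg x y) _
  self x := by
    unfold dq
    rw [rho_self, Real.zero_rpow (by positivity)]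
  eq_of x y h := by
    apply rho_eq
    rw [← dq_rpow hq, h, Real.zero_rpow hq.ne']
  symm x y := by unfold dq; rw [rho_symm]
  tri x y z := by
    rw [dq_rpow hq, dq_rpow hq, dq_rpow hq]
    exact rho_tri x y z

/-- distances between the terminals -/
noncomputable def dN (q : ℝ) (u v : Option (Fin m × Fin k)) : ℝ :=
  dq q (Sum.inl u : Pt m k) (Sum.inl v)

theorem one_le_rho (u v : Option (Fin m × Fin k)) (h : u ≠ v) :
    2 ≤ rho (Sum.inl u : Pt m k) (Sum.inl v) := by
  rcases u with _ | ⟨c, i⟩ <;> rcases v with _ | ⟨c', j⟩ <;> simp only [rho]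
  · exact absurd rfl h
  · norm_num
  · norm_num
  · split_ifs with h1 h2
    · subst h1; subst h2; exact absurd rfl h
    · norm_num
    · norm_num

theorem good_dN {q : ℝ} (hq : 0 < q) : Good (dN q : Option (Fin m × Fin k) → _ → ℝ) where
  self u := (isRMetric_dq hq).self _
  symm u v := (isRMetric_dq hq).symm _ _
  one_le u v h := by
    unfold dN dq
    refine Real.one_le_rpow ?_ (by positivity)
    linarith [one_le_rho u v h]

section pnorm
variable {p : ℝ} {Y : Type} [AddCommGroup Y] [Module ℝ Y] {ν : Y → ℝ}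

theorem IsPNorm.zero (hν : IsPNorm p ν) : ν 0 = 0 := by
  have := hν.smul 0 0
  rwa [zero_smul, abs_zero, zero_mul] at this

theorem IsPNorm.sum (hp : 0 < p) (hν : IsPNorm p ν) {ι : Type*} (s : Finset ι) (y : ι → Y) :
    ν (∑ i ∈ s, y i) ^ p ≤ ∑ i ∈ s, ν (y i) ^ p := by
  classical
  induction s using Finset.induction_on with
  | empty => simp [hν.zero, Real.zero_rpow hp.ne']
  | insert a s ha ih =>
    rw [Finset.sum_insert ha, Finset.sum_insert ha]
    exact (hν.add _ _).trans (add_le_add le_rfl ih)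

/-- the bound over the big space -/
theorem upper {q : ℝ} (hp : 0 < p) (hν : IsPNorm p ν) (f : Pt m k → Y)
    (hf0 : f (Sum.inl none) = 0) (hf : ∀ x y, ν (f x - f y) ≤ dq q x y) :
    ν (∑ t, f (Sum.inl (some t))) ^ p ≤
      m * k + m * (k : ℝ) ^ p + ((m : ℝ) * k) ^ p * 2 ^ (p / q) := by
  have e : ∑ t : Fin m × Fin k, f (Sum.inl (some t)) =
      ∑ t : Fin m × Fin k, (f (Sum.inl (some t)) - f (Sum.inr (some t.1))) +
        (∑ c : Fin m, (k : ℝ) • (f (Sum.inr (some c)) - f (Sum.inr none)) +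
          ((m : ℝ) * k) • (f (Sum.inr none) - f (Sum.inl none))) := by
    rw [hf0, sub_zero, Finset.sum_sub_distrib]
    have h1 : ∑ t : Fin m × Fin k, f (Sum.inr (some t.1)) =
        ∑ c : Fin m, (k : ℝ) • f (Sum.inr (some c)) := by
      rw [Fintype.sum_prod_type]
      refine Finset.sum_congr rfl fun c _ => ?_
      show ∑ _y : Fin k, f (Sum.inr (some c)) = (k : ℝ) • f (Sum.inr (some c))
      rw [Finset.sum_const, Finset.card_univ, Fintype.card_fin, Nat.cast_smul_eq_nsmul]
    have h2 : ∑ c : Fin m, (k : ℝ) • (f (Sum.inr (some c)) - f (Sum.inr none)) =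
        ∑ c : Fin m, (k : ℝ) • f (Sum.inr (some c)) - ((m : ℝ) * k) • f (Sum.inr none) := by
      simp only [smul_sub]
      rw [Finset.sum_sub_distrib, Finset.sum_const, Finset.card_univ, Fintype.card_fin,
        ← Nat.cast_smul_eq_nsmul ℝ, smul_smul]
    rw [h1, h2]
    abel
  rw [e]
  refine (hν.add _ _).trans ?_
  have b1 : ν (∑ t : Fin m × Fin k, (f (Sum.inl (some t)) - f (Sum.inr (some t.1)))) ^ p ≤
      m * k := by
    refine (hν.sum hp _ _).trans ?_
    have h1 : ∀ t : Fin m × Fin k, ν (f (Sum.inl (some t)) - f (Sum.inr (some t.1))) ^ p ≤ 1 := by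
      intro t
      have h2 := hf (Sum.inl (some t)) (Sum.inr (some t.1))
      have h3 : dq q (Sum.inl (some t) : Pt m k) (Sum.inr (some t.1)) = 1 := by
        unfold dq
        obtain ⟨c, i⟩ := t
        simp [rho]
      rw [h3] at h2
      exact Real.rpow_le_one (hν.nonneg _) h2 hp.le
    refine (Finset.sum_le_sum fun t _ => h1 t).trans ?_
    simp
  have b2 : ν (∑ c : Fin m, (k : ℝ) • (f (Sum.inr (some c)) - f (Sum.inr none))) ^ p ≤
      m * (k : ℝ) ^ p := by
    refine (hν.sum hp _ _).trans ?_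
    have h1 : ∀ c : Fin m, ν ((k : ℝ) • (f (Sum.inr (some c)) - f (Sum.inr none))) ^ p ≤
        (k : ℝ) ^ p := by
      intro c
      have h2 := hf (Sum.inr (some c)) (Sum.inr none)
      have h3 : dq q (Sum.inr (some c) : Pt m k) (Sum.inr none) = 1 := by
        unfold dq; simp [rho]
      rw [h3] at h2
      rw [hν.smul, Real.mul_rpow (abs_nonneg _) (hν.nonneg _), Nat.abs_cast]
      exact mul_le_of_le_one_right (by positivity) (Real.rpow_le_one (hν.nonneg _) h2 hp.le)
    refine (Finset.sum_le_sum fun t _ => h1 t).trans ?_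
    simp
  have b3 : ν (((m : ℝ) * k) • (f (Sum.inr none) - f (Sum.inl none))) ^ p ≤
      ((m : ℝ) * k) ^ p * 2 ^ (p / q) := by
    have h2 := hf (Sum.inr none) (Sum.inl none)
    have h3 : dq q (Sum.inr none : Pt m k) (Sum.inl none) = 2 ^ (1 / q) := by
      unfold dq; simp [rho]
    rw [h3] at h2
    rw [hν.smul, Real.mul_rpow (abs_nonneg _) (hν.nonneg _), abs_of_nonneg (by positivity)]
    refine mul_le_mul_of_nonneg_left ?_ (by positivity)
    refine (Real.rpow_le_rpow (hν.nonneg _) h2 hp.le).trans (le_of_eq ?_)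
    rw [← Real.rpow_mul (by norm_num)]
    congr 1
    ring
  have b4 := hν.add (∑ c : Fin m, (k : ℝ) • (f (Sum.inr (some c)) - f (Sum.inr none)))
    (((m : ℝ) * k) • (f (Sum.inr none) - f (Sum.inl none)))
  linarith

end pnorm

/-- the coefficients: one at each leaf -/
noncomputable def coef (m k : ℕ) : (Set.range (Sum.inl : Option (Fin m × Fin k) → Pt m k)) → ℝ :=
  fun x => if x.1 = Sum.inl none then 0 else 1

theorem am_ge {p q : ℝ} (hp : 0 < p) (hp1 : p ≤ 1) (hq : 0 < q) (hk : 1 ≤ k) (hm : 1 ≤ m)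
    {κ : ℝ} (hκ0 : 0 ≤ κ) (hκ1 : κ ≤ (2 : ℝ) ^ (p / q) - 1)
    (hκ2 : 1 + κ * k ≤ (2 : ℝ) ^ (p / q) * (k : ℝ) ^ p) :
    ENNReal.ofReal ((m * ((2 : ℝ) ^ (p / q) * (k + κ * k))) ^ (1 / p)) /
      ENNReal.ofReal ((m * k + m * (k : ℝ) ^ p + ((m : ℝ) * k) ^ p * 2 ^ (p / q)) ^ (1 / p)) ≤
    am p (dq q : Pt m k → Pt m k → ℝ) (Sum.inl none)
      (Set.range (Sum.inl : Option (Fin m × Fin k) → Pt m k)) ⟨none, rfl⟩ := by
  classical
  have hw0 : (1 : ℝ) ≤ (2 : ℝ) ^ (p / q) := Real.one_le_rpow (by norm_num) (by positivity)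
  unfold am
  refine le_trans ?_ (le_iSup₂_of_le (coef m k) ?_ le_rfl)
  swap
  · refine ⟨⟨Sum.inl (some (⟨0, hm⟩, ⟨0, hk⟩)), some _, rfl⟩, by simp, ?_⟩
    simp [coef]
  refine ENNReal.div_le_div ?_ ?_
  · -- lower bound over `N`
    unfold freeNorm
    let e : (Set.range (Sum.inl : Option (Fin m × Fin k) → Pt m k)) → Option (Fin m × Fin k) :=
      (Equiv.ofInjective (Sum.inl : Option (Fin m × Fin k) → Pt m k) Sum.inl_injective).symm
    have he : ∀ x, (Sum.inl (e x) : Pt m k) = x.1 := by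
      intro x
      have := (Equiv.ofInjective (Sum.inl : Option (Fin m × Fin k) → Pt m k)
        Sum.inl_injective).apply_symm_apply x
      exact congrArg Subtype.val this
    refine le_trans ?_ (le_iSup_of_le (Fin m × Fin k → ℝ) (le_iSup_of_le inferInstance
      (le_iSup_of_le inferInstance (le_iSup_of_le (gau p (dN q)) (le_iSup_of_le
      (fun x => emb (e x)) (le_iSup_of_le ?_ le_rfl))))))
    swap
    · refine ⟨isPNorm_gau hp hp1 (good_dN hq), isComplete_gau hp hp1 (good_dN hq), ?_, ?_⟩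
      · have h1 : e ⟨Sum.inl none, ⟨none, rfl⟩⟩ = none := by
          have := he ⟨Sum.inl none, ⟨none, rfl⟩⟩
          exact Sum.inl_injective this
        show emb (e _) = 0
        rw [h1]; rfl
      · intro x y
        refine (gau_emb hp (good_dN hq) _ _).trans (le_of_eq ?_)
        unfold dN
        rw [he, he]
    refine ENNReal.ofReal_le_ofReal ?_
    have hsum : ∀ inst : Fintype (Set.range (Sum.inl : Option (Fin m × Fin k) → Pt m k)),
        (@Finset.univ _ inst).sum (fun x => coef m k x • emb (e x)) =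
          (1 : Fin m × Fin k → ℝ) := by
      intro inst
      have h1 : ∑ x, coef m k x • emb (e x) =
          ∑ u : Option (Fin m × Fin k), (if u = none then (0 : ℝ) else 1) • emb u := by
        refine Fintype.sum_equiv (Equiv.ofInjective (Sum.inl : Option (Fin m × Fin k) → Pt m k)
          Sum.inl_injective).symm _ _ fun x => ?_
        have h2 : coef m k x = if e x = none then (0 : ℝ) else 1 := by
          unfold coef
          rw [← he x]
          simp only [Sum.inl.injEq]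
        rw [h2]
      rw [h1, Fintype.sum_option]
      simp only [reduceCtorEq, if_false, if_true, zero_smul, zero_add, one_smul]
      funext t
      rw [Finset.sum_apply]
      simp only [emb]
      rw [Finset.sum_eq_single t]
      · simp
      · intro s _ hs
        exact Pi.single_eq_of_ne' hs _
      · intro h; exact absurd (Finset.mem_univ _) h
    refine le_of_le_of_eq ?_ (congrArg (gau p (dN q)) (hsum _).symm)
    unfold gau
    refine Real.rpow_le_rpow (by positivity) ?_ (by positivity)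
    refine le_gp fun b hb hdv => ?_
    have h2s : ((2 : ℝ) ^ (1 / q)) ^ p = 2 ^ (p / q) := by
      rw [← Real.rpow_mul (by norm_num)]; congr 1; ring
    have h4s : ((4 : ℝ) ^ (1 / q)) ^ p = 2 ^ (p / q) * 2 ^ (p / q) := by
      rw [← Real.rpow_mul (by norm_num), ← Real.mul_rpow (by norm_num) (by norm_num)]
      norm_num
      congr 1; ring
    refine lower hp hp1 hk (good_dN hq) (w1 := 2 ^ (p / q)) (by positivity) hw0 hκ0 hκ1 hκ2
      ?_ ?_ ?_ b hb hdv
    · intro c i j hij
      unfold dN dq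
      simp only [rho, if_true, if_neg hij]
      exact h2s.ge
    · intro c i c' j hcc
      unfold dN dq
      simp only [rho, if_neg hcc]
      exact h4s.ge
    · intro c i
      unfold dN dq
      simp only [rho]
      exact h4s.ge
  · -- upper bound over `M`
    unfold freeNorm
    refine iSup_le fun Y => iSup_le fun _ => iSup_le fun _ => iSup_le fun ν => iSup_le fun f =>
      iSup_le fun hf => ?_
    obtain ⟨hν, _, hf0, hf⟩ := hf
    refine ENNReal.ofReal_le_ofReal ?_
    have hsum : ∑ x : Pt m k, ext0 _ (coef m k) x • f x = ∑ t, f (Sum.inl (some t)) := by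
      rw [Fintype.sum_sum_type, Fintype.sum_option]
      have h1 : ∀ y : Option (Fin m), ext0 _ (coef m k) (Sum.inr y) • f (Sum.inr y) = 0 := by
        intro y
        rw [ext0_not_mem _ (by simp), zero_smul]
      have h2 : ∀ t : Fin m × Fin k, ext0 _ (coef m k) (Sum.inl (some t)) • f (Sum.inl (some t)) =
          f (Sum.inl (some t)) := by
        intro t
        have hmem : (Sum.inl (some t) : Pt m k) ∈
            Set.range (Sum.inl : Option (Fin m × Fin k) → Pt m k) := ⟨some t, rfl⟩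
        rw [ext0_mem _ hmem]
        simp [coef]
      simp only [h1, h2]
      rw [hf0, smul_zero, zero_add, Finset.sum_const_zero, add_zero]
    rw [hsum]
    have h3 := upper hp hν f hf0 hf
    have h4 : (0 : ℝ) ≤ m * k + m * (k : ℝ) ^ p + ((m : ℝ) * k) ^ p * 2 ^ (p / q) := by
      positivity
    calc ν (∑ t, f (Sum.inl (some t))) = (ν (∑ t, f (Sum.inl (some t))) ^ p) ^ (1 / p) := by
          rw [← Real.rpow_mul (hν.nonneg _), mul_one_div_cancel hp.ne', Real.rpow_one]
      _ ≤ _ := Real.rpow_le_rpow (Real.rpow_nonneg (hν.nonneg _) _) h3 (by positivity)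

/-- choice of the parameters -/
theorem exists_params {p s : ℝ} (hp : 0 < p) (hp1 : p < 1) (hs : 0 < s) :
    ∃ (m k : ℕ) (κ : ℝ), 1 ≤ k ∧ 1 ≤ m ∧ 0 ≤ κ ∧ κ ≤ (2 : ℝ) ^ s - 1 ∧
      1 + κ * k ≤ (2 : ℝ) ^ s * (k : ℝ) ^ p ∧
      m * k + m * (k : ℝ) ^ p + ((m : ℝ) * k) ^ p * 2 ^ s < m * (k + κ * k) := by
  have hw : (1 : ℝ) < 2 ^ s := Real.one_lt_rpow (by norm_num) hs
  have hdec : ∀ ε : ℝ, 0 < ε → ∀ᶠ n : ℕ in atTop, (n : ℝ) ^ (p - 1) < ε := by
    intro ε hε
    have h1 : Tendsto (fun x : ℝ => x ^ (-(1 - p))) atTop (nhds 0) :=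
      tendsto_rpow_neg_atTop (by linarith)
    have h2 := (h1.comp tendsto_natCast_atTop_atTop).eventually (gt_mem_nhds hε)
    filter_upwards [h2] with n hn
    have : p - 1 = -(1 - p) := by ring
    rw [this]
    exact hn
  have hinc : ∀ C : ℝ, ∀ᶠ n : ℕ in atTop, C < (n : ℝ) ^ p := by
    intro C
    exact ((tendsto_rpow_atTop hp).comp tendsto_natCast_atTop_atTop).eventually_gt_atTop C
  obtain ⟨k, hk1, hk2, hk3⟩ := ((hdec ((2 : ℝ) ^ s - 1) (by linarith)).and
    ((hinc (1 / ((2 : ℝ) ^ s - 1))).and (eventually_ge_atTop 1))).exists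
  have hkpos : (0 : ℝ) < k := by exact_mod_cast hk3
  have hkp : (k : ℝ) ^ (p - 1) * k = (k : ℝ) ^ p := by
    rw [Real.rpow_sub_one hkpos.ne', div_mul_cancel₀ _ hkpos.ne']
  set κ : ℝ := min ((2 : ℝ) ^ s - 1) (((2 : ℝ) ^ s * (k : ℝ) ^ p - 1) / k) with hκ
  rw [div_lt_iff₀ (by linarith)] at hk2
  have hκ1 : (k : ℝ) ^ (p - 1) < κ := by
    rw [hκ, lt_min_iff]
    refine ⟨hk1, ?_⟩
    rw [lt_div_iff₀ hkpos, hkp]
    nlinarith
  have hδ : 0 < κ * k - (k : ℝ) ^ p := by
    have := mul_lt_mul_of_pos_right hκ1 hkpos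
    rw [hkp] at this
    linarith
  have hC : 0 < (k : ℝ) ^ p * 2 ^ s := by positivity
  obtain ⟨m, hm1, hm2⟩ := ((hdec ((κ * k - (k : ℝ) ^ p) / ((k : ℝ) ^ p * 2 ^ s))
    (by positivity)).and (eventually_ge_atTop 1)).exists
  have hmpos : (0 : ℝ) < m := by exact_mod_cast hm2
  have hmp : (m : ℝ) ^ (p - 1) * m = (m : ℝ) ^ p := by
    rw [Real.rpow_sub_one hmpos.ne', div_mul_cancel₀ _ hmpos.ne']
  refine ⟨m, k, κ, hk3, hm2, ?_, min_le_left _ _, ?_, ?_⟩
  · exact (Real.rpow_nonneg hkpos.le _).trans hκ1.le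
  · have h1 : κ ≤ ((2 : ℝ) ^ s * (k : ℝ) ^ p - 1) / k := min_le_right _ _
    rw [le_div_iff₀ hkpos] at h1
    linarith
  · rw [lt_div_iff₀ hC] at hm1
    have h2 := mul_lt_mul_of_pos_left hm1 hmpos
    have h3 : (m : ℝ) * ((m : ℝ) ^ (p - 1) * ((k : ℝ) ^ p * 2 ^ s)) =
        ((m : ℝ) * k) ^ p * 2 ^ s := by
      rw [Real.mul_rpow hmpos.le hkpos.le, ← hmp]
      ring
    rw [h3] at h2
    linarith

theorem main {p q : ℝ} (hp : 0 < p) (hp1 : p < 1) (hq : 0 < q) :
    ∃ n, ENNReal.ofReal ((2 : ℝ) ^ (1 / q)) < amSup p q n := by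
  obtain ⟨m, k, κ, hk, hm, hκ0, hκ1, hκ2, hlt⟩ := exists_params hp hp1 (div_pos hp hq)
  refine ⟨m * k, ?_⟩
  have h1 := am_ge (m := m) (k := k) hp hp1.le hq hk hm hκ0 hκ1 hκ2
  have h2 : am p (dq q : Pt m k → Pt m k → ℝ) (Sum.inl none)
      (Set.range (Sum.inl : Option (Fin m × Fin k) → Pt m k)) ⟨none, rfl⟩ ≤
      amSup p q (m * k) := by
    unfold amSup
    refine le_iSup_of_le (Pt m k) (le_iSup_of_le inferInstance (le_iSup_of_le (dq q)
      (le_iSup_of_le (Sum.inl none) (le_iSup_of_le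
      (Set.range (Sum.inl : Option (Fin m × Fin k) → Pt m k)) (le_iSup_of_le ⟨none, rfl⟩
      (le_iSup_of_le ⟨isRMetric_dq hq, ?_⟩ le_rfl))))))
    rw [Nat.card_range_of_injective Sum.inl_injective]
    simp
  refine lt_of_lt_of_le ?_ (h1.trans h2)
  have hkpos : (0 : ℝ) < k := by exact_mod_cast hk
  have hmpos : (0 : ℝ) < m := by exact_mod_cast hm
  set U : ℝ := m * k + m * (k : ℝ) ^ p + ((m : ℝ) * k) ^ p * 2 ^ (p / q) with hU
  set B : ℝ := m * (k + κ * k) with hB
  have hU0 : 0 < U := by positivity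
  have hw : (0 : ℝ) < 2 ^ (p / q) := by positivity
  have e1 : (m : ℝ) * ((2 : ℝ) ^ (p / q) * (k + κ * k)) = 2 ^ (p / q) * B := by rw [hB]; ring
  rw [e1, ← ENNReal.ofReal_div_of_pos (by positivity), ← Real.div_rpow (by positivity) hU0.le]
  refine (ENNReal.ofReal_lt_ofReal_iff (by positivity)).2 ?_
  have e2 : (2 : ℝ) ^ (1 / q) = (2 ^ (p / q)) ^ (1 / p) := by
    rw [← Real.rpow_mul (by norm_num)]
    congr 1
    field_simp
  rw [e2]
  refine Real.rpow_lt_rpow hw.le ?_ (by positivity)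
  rw [lt_div_iff₀ hU0]
  exact mul_lt_mul_of_pos_left hlt hw

end Pool.Agent.Q197.AM
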